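import Pool.Agent.Lib_MP_8403e4_ins.Core

/-!
# A cocompact pretty base on a subspace of a compact basically disconnected space

The space `Y` is the Stone-Cech compactification of the P-space `ℕ × (ℝ ∪ {∞})` in which the points
`(n, x)` with `x` real are isolated and a neighbourhood of `(n, ∞)` contains all but countably many
points of layer `n`; `X ⊆ Y` consists of the points in the closure of a countable set of isolated
points and of one limit `p` of the points `(n, ∞)` along a free ultrafilter. The two sets of all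
points of `X` in the closure of `{(n, x) : x < 0}`, resp. `{(n, x) : x > 0}`, for some `n` are
disjoint countable unions of clopen sets, and `p` is in the closure of both.
-/

set_option autoImplicit false

open Set

namespace Pool.Agent.Results.MP_8403e4_gt.CompactAmbient

/-- The cozero set of a continuous map with two values `false` (for `0`) and `true` (for `1`). -/
def coz {X : Type} [TopologicalSpace X] (f : C(X, Bool)) : Set X := {x | f x = true}

/-- A pretty base, given by a family `H` of continuous maps with values `0` and `1`: the sets `coz f`,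
`f ∈ H`, form a base, and for countable `P ⊆ H` and arbitrary `Q ⊆ H` with `c ≤ 1 - d` for all
`c ∈ P`, `d ∈ Q` some `f ∈ H` satisfies `c ≤ f ≤ 1 - d` for all `c ∈ P`, `d ∈ Q`. -/
def IsPretty {X : Type} [TopologicalSpace X] (H : Set C(X, Bool)) : Prop :=
  TopologicalSpace.IsTopologicalBasis (coz '' H) ∧
    ∀ P Q : Set C(X, Bool), P ⊆ H → P.Countable → Q ⊆ H →
      (∀ c ∈ P, ∀ d ∈ Q, ∀ x, c x ≤ !(d x)) →
      ∃ f ∈ H, (∀ c ∈ P, ∀ x, c x ≤ f x) ∧ ∀ d ∈ Q, ∀ x, f x ≤ !(d x)

/-- The cotopology of a family `𝓑` of subsets of a space `X`: the topology on `X` which is generated by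
the complements of the closures of the members of `𝓑`. -/
@[reducible] def cotopology {X : Type} [TopologicalSpace X] (𝓑 : Set (Set X)) : TopologicalSpace X :=
  TopologicalSpace.generateFrom {U | ∃ B ∈ 𝓑, U = (closure B)ᶜ}

/-- `X` has a cocompact pretty base. -/
def HasCocompactPrettyBase (X : Type) [TopologicalSpace X] : Prop :=
  ∃ H : Set C(X, Bool), IsPretty H ∧ @CompactSpace X (cotopology (coz '' H))

/-- Basically disconnected: a zero-dimensional Hausdorff space in which the closure of the union of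
any countable family of clopen sets is clopen. -/
def IsBasicallyDisconnected (X : Type) [TopologicalSpace X] : Prop :=
  T2Space X ∧ TopologicalSpace.IsTopologicalBasis {s : Set X | IsClopen s} ∧
    ∀ 𝓒 : Set (Set X), 𝓒.Countable → (∀ U ∈ 𝓒, IsClopen U) → IsClopen (closure (⋃₀ 𝓒))

/-- F-space: every bounded continuous real function on a cozero set extends to a bounded continuous
real function on the whole space. -/
def IsFSpace (X : Type) [TopologicalSpace X] : Prop :=
  ∀ f : C(X, ℝ), ∀ g : BoundedContinuousFunction {x : X // f x ≠ 0} ℝ,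
    ∃ h : BoundedContinuousFunction X ℝ, ∀ x : {x : X // f x ≠ 0}, h x.1 = g x

open Pool.Agent.CompactPretty

lemma not_basic {X : Type} [TopologicalSpace X] (A B : ℕ → Set X) (hA : ∀ n, IsClopen (A n))
    (hB : ∀ n, IsClopen (B n)) (hAB : Disjoint (⋃ n, A n) (⋃ n, B n))
    (hp : (closure (⋃ n, A n) ∩ closure (⋃ n, B n)).Nonempty) : ¬ IsBasicallyDisconnected X := by
  rintro ⟨-, -, h⟩
  obtain ⟨p, hpA, hpB⟩ := hp
  have h1 : IsClopen (closure (⋃ n, A n)) := by
    have h2 := h (range A) (countable_range A) (by rintro _ ⟨n, rfl⟩; exact hA n)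
    rwa [sUnion_range] at h2
  obtain ⟨z, hz1, hz2⟩ := mem_closure_iff.1 hpB _ h1.2 hpA
  obtain ⟨w, hw1, hw2⟩ := mem_closure_iff.1 hz1 _ (isOpen_iUnion fun n => (hB n).2) hz2
  exact Set.disjoint_left.1 hAB hw2 hw1

lemma not_fspace {X : Type} [TopologicalSpace X] (A B : ℕ → Set X) (hA : ∀ n, IsClopen (A n))
    (hB : ∀ n, IsClopen (B n)) (hAB : Disjoint (⋃ n, A n) (⋃ n, B n))
    (hp : (closure (⋃ n, A n) ∩ closure (⋃ n, B n)).Nonempty) : ¬ IsFSpace X := by
  classical
  intro h
  obtain ⟨p, hpA, hpB⟩ := hp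
  have hU : ∀ n, IsClopen (A n ∪ B n) := fun n => (hA n).union (hB n)
  let t : ℕ → X → ℝ := fun n x => if x ∈ A n ∪ B n then (1 / 2 : ℝ) ^ n else 0
  have ht0 : ∀ n x, 0 ≤ t n x := by
    intro n x
    by_cases hx : x ∈ A n ∪ B n
    · simp only [t, if_pos hx]; positivity
    · simp only [t, if_neg hx]; exact le_rfl
  have ht1 : ∀ n x, ‖t n x‖ ≤ (1 / 2 : ℝ) ^ n := by
    intro n x
    rw [Real.norm_of_nonneg (ht0 n x)]
    by_cases hx : x ∈ A n ∪ B n
    · simp only [t, if_pos hx]; exact le_rfl
    · simp only [t, if_neg hx]; positivity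
  have htc : ∀ n, Continuous (t n) := by
    intro n
    refine continuous_if ?_ ?_ ?_
    · intro a ha
      have : frontier (A n ∪ B n) = ∅ := (hU n).frontier_eq
      exfalso
      have ha' : a ∈ frontier (A n ∪ B n) := ha
      rw [this] at ha'
      exact ha'
    · exact continuousOn_const
    · exact continuousOn_const
  have hsum : Summable fun n : ℕ => (1 / 2 : ℝ) ^ n := summable_geometric_two
  have hfc : Continuous fun x => ∑' n, t n x := continuous_tsum htc hsum ht1
  let f : C(X, ℝ) := ⟨fun x => ∑' n, t n x, hfc⟩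
  have hs : ∀ x, Summable fun n => t n x := fun x =>
    Summable.of_norm_bounded hsum fun n => ht1 n x
  have hf1 : ∀ n x, x ∈ A n ∪ B n → f x ≠ 0 := by
    intro n x hx
    refine ne_of_gt ?_
    refine (hs x).tsum_pos (fun i => ht0 i x) n ?_
    simp only [t, if_pos hx]
    positivity
  have hf0 : ∀ x, f x ≠ 0 → x ∈ ⋃ n, A n ∨ x ∈ ⋃ n, B n := by
    intro x hx
    by_contra hcon
    apply hx
    have h2 : ∀ n, t n x = 0 := by
      intro n
      have h3 : x ∉ A n ∪ B n := by
        rintro (h4 | h4)
        · exact hcon (Or.inl (mem_iUnion.2 ⟨n, h4⟩))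
        · exact hcon (Or.inr (mem_iUnion.2 ⟨n, h4⟩))
      simp only [t, if_neg h3]
    show ∑' n, t n x = 0
    simp only [h2, tsum_zero]
  let V : Set {x : X // f x ≠ 0} := {y | y.1 ∈ ⋃ n, A n}
  have hV : IsClopen V := by
    constructor
    · have h5 : Vᶜ = {y : {x : X // f x ≠ 0} | y.1 ∈ ⋃ n, B n} := by
        ext y
        constructor
        · intro hy
          rcases hf0 y.1 y.2 with h6 | h6
          · exact absurd h6 hy
          · exact h6
        · intro hy h6
          exact Set.disjoint_left.1 hAB h6 hy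
      rw [← isOpen_compl_iff, h5]
      exact (isOpen_iUnion fun n => (hB n).2).preimage continuous_subtype_val
    · exact (isOpen_iUnion fun n => (hA n).2).preimage continuous_subtype_val
  let g0 : {x : X // f x ≠ 0} → ℝ := fun y => if y ∈ V then 1 else 0
  have hg0 : Continuous g0 := by
    refine continuous_if ?_ continuousOn_const continuousOn_const
    intro a ha
    exfalso
    have ha' : a ∈ frontier V := ha
    rw [hV.frontier_eq] at ha'
    exact ha'
  have hb : ∀ y, ‖g0 y‖ ≤ 1 := by
    intro y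
    by_cases hy : y ∈ V
    · simp only [g0, if_pos hy, norm_one]; exact le_rfl
    · simp only [g0, if_neg hy, norm_zero]; exact zero_le_one
  obtain ⟨k, hk⟩ := h f (BoundedContinuousFunction.ofNormedAddCommGroup g0 hg0 1 hb)
  have hkA : closure (⋃ n, A n) ⊆ {x | k x = 1} := by
    refine closure_minimal ?_ (isClosed_eq k.continuous continuous_const)
    intro x hx
    obtain ⟨n, hn⟩ := mem_iUnion.1 hx
    have h7 := hk ⟨x, hf1 n x (Or.inl hn)⟩
    have h8 : g0 ⟨x, hf1 n x (Or.inl hn)⟩ = 1 := if_pos hx
    exact h7.trans h8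
  have hkB : closure (⋃ n, B n) ⊆ {x | k x = 0} := by
    refine closure_minimal ?_ (isClosed_eq k.continuous continuous_const)
    intro x hx
    obtain ⟨n, hn⟩ := mem_iUnion.1 hx
    have h7 := hk ⟨x, hf1 n x (Or.inr hn)⟩
    have h8 : g0 ⟨x, hf1 n x (Or.inr hn)⟩ = 0 :=
      if_neg fun h9 => Set.disjoint_left.1 hAB h9 hx
    exact h7.trans h8
  have h9 : k p = 1 := hkA hpA
  have h10 : k p = 0 := hkB hpB
  rw [h9] at h10
  exact one_ne_zero h10

lemma pretty_XX : HasCocompactPrettyBase XX := by
  classical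
  have him : coz '' {f : C(XX, Bool) | coz f ∈ BB} = BB := by
    ext B
    constructor
    · rintro ⟨f, hf, rfl⟩
      exact hf
    · intro hB
      have hc : Continuous (B.boolIndicator) :=
        (continuous_boolIndicator_iff_isClopen B).2 (BB_clopen hB)
      have hcz : coz (⟨B.boolIndicator, hc⟩ : C(XX, Bool)) = B := by
        ext x
        exact (mem_iff_boolIndicator B x).symm
      refine ⟨⟨B.boolIndicator, hc⟩, ?_, hcz⟩
      show coz _ ∈ BB
      rw [hcz]
      exact hB
  refine ⟨{f : C(XX, Bool) | coz f ∈ BB}, ⟨?_, ?_⟩, ?_⟩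
  · rw [him]
    exact BB_basis
  · intro P Q hC hCc hD hCD
    obtain ⟨W, hW, hW1, hW2⟩ := BB_pretty (coz '' P) (coz '' Q)
      (by rintro _ ⟨c, hc, rfl⟩; exact hC hc) (hCc.image _)
      (by rintro _ ⟨d, hd, rfl⟩; exact hD hd)
      (by
        rintro _ ⟨c, hc, rfl⟩ _ ⟨d, hd, rfl⟩
        rw [Set.disjoint_left]
        intro x hxc hxd
        have h1 := hCD c hc d hd x
        have h2 : c x = true := hxc
        have h3 : d x = true := hxd
        rw [h2, h3] at h1
        exact absurd h1 (by decide))
    have hc : Continuous (W.boolIndicator) :=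
      (continuous_boolIndicator_iff_isClopen W).2 (BB_clopen hW)
    have hcz : coz (⟨W.boolIndicator, hc⟩ : C(XX, Bool)) = W := by
      ext x
      exact (mem_iff_boolIndicator W x).symm
    refine ⟨⟨W.boolIndicator, hc⟩, ?_, ?_, ?_⟩
    · show coz _ ∈ BB
      rw [hcz]
      exact hW
    · intro c hc' x hx
      have h1 : x ∈ W := hW1 (coz c) ⟨c, hc', rfl⟩ hx
      exact (mem_iff_boolIndicator W x).1 h1
    · intro d hd x hx
      have h1 : x ∈ W := (mem_iff_boolIndicator W x).2 hx
      have h2 : x ∉ coz d := fun h3 => Set.disjoint_left.1 (hW2 (coz d) ⟨d, hd, rfl⟩) h1 h3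
      have h4 : d x = false := by
        rcases h5 : d x with _ | _
        · rfl
        · exact absurd h5 h2
      rw [h4]
      rfl
  · rw [him]
    have h1 : {U : Set XX | ∃ B ∈ BB, U = (closure B)ᶜ} = (fun B : Set XX => (closure B)ᶜ) '' BB := by
      ext U
      constructor
      · rintro ⟨B, hB, rfl⟩
        exact ⟨B, hB, rfl⟩
      · rintro ⟨B, hB, rfl⟩
        exact ⟨B, hB, rfl⟩
    unfold cotopology
    rw [h1]
    exact BB_cocompact

lemma basic_disc_YY : IsBasicallyDisconnected YY := by
  refine ⟨inferInstance, basis_YY, ?_⟩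
  intro 𝓒 h𝓒 hcl
  rcases 𝓒.eq_empty_or_nonempty with rfl | hne
  · simp only [sUnion_empty, closure_empty]
    exact isClopen_empty
  · obtain ⟨U, rfl⟩ := h𝓒.exists_eq_range hne
    rw [sUnion_range]
    exact basic_YY U fun m => hcl _ ⟨m, rfl⟩

lemma fspace_YY : IsFSpace YY := by
  intro f g
  obtain ⟨h, hc, ⟨M, hM⟩, hh⟩ := fspace f f.continuous g g.continuous
    ⟨‖g‖, fun y => g.norm_coe_le_norm y⟩
  exact ⟨BoundedContinuousFunction.ofNormedAddCommGroup h hc M hM, hh⟩

/-- There are a compact space `Y` which is basically disconnected and an F-space, and a subspace `X`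
of `Y` with a cocompact pretty base which is not basically disconnected; it is not even an F-space:
there are disjoint countable unions of clopen subsets of `X` whose closures have a common point. -/
theorem result :
    ∃ (Y : Type) (_ : TopologicalSpace Y) (X : Set Y),
      CompactSpace Y ∧ IsBasicallyDisconnected Y ∧ IsFSpace Y ∧
      HasCocompactPrettyBase X ∧ ¬ IsBasicallyDisconnected X ∧ ¬ IsFSpace X ∧
      ∃ A B : ℕ → Set X, (∀ n, IsClopen (A n)) ∧ (∀ n, IsClopen (B n)) ∧
        Disjoint (⋃ n, A n) (⋃ n, B n) ∧ (closure (⋃ n, A n) ∩ closure (⋃ n, B n)).Nonempty := by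
  obtain ⟨hA, hB, hAB, hp⟩ : (∀ n, IsClopen (tr (layer n (Iio 0)))) ∧
      (∀ n, IsClopen (tr (layer n (Ioi 0)))) ∧
      Disjoint (⋃ n, tr (layer n (Iio 0))) (⋃ n, tr (layer n (Ioi 0))) ∧
      (closure (⋃ n, tr (layer n (Iio 0))) ∩ closure (⋃ n, tr (layer n (Ioi 0)))).Nonempty :=
    ⟨fun n => isClopen_layer n _, fun n => isClopen_layer n _,
      layers_disjoint (Set.disjoint_left.2 fun x (hx : x < 0) (hx' : 0 < x) => lt_asymm hx hx'),
      ⟨⟨F, F_mem_XX⟩, F_mem_closure_layers not_countable_Iio,
        F_mem_closure_layers not_countable_Ioi⟩⟩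
  exact ⟨YY, inferInstance, XX, inferInstance, basic_disc_YY, fspace_YY, pretty_XX,
    not_basic _ _ hA hB hAB hp, not_fspace _ _ hA hB hAB hp, _, _, hA, hB, hAB, hp⟩

end Pool.Agent.Results.MP_8403e4_gt.CompactAmbient
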